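import Mathlib

set_option autoImplicit false

namespace Pool.Agent.H.MP_48d5b6_gt
open scoped ENNReal InnerProductSpace ComplexConjugate Convolution
open MeasureTheory Set FourierTransform SchwartzMap Real Filter Topology ProbabilityTheory

variable {E : Type} [NormedAddCommGroup E] [InnerProductSpace ℝ E] [FiniteDimensional ℝ E]
  [MeasurableSpace E] [BorelSpace E]

theorem four (f : Lp ℂ 2 (volume : Measure E)) (hf : Integrable f) :
    (𝓕 f : Lp ℂ 2 (volume : Measure E)) =ᵐ[volume] 𝓕 (f : E → ℂ) := by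
  have hL : Continuous fun p : E × E => innerₗ E p.1 p.2 := continuous_inner
  have : (𝓕 f : Lp ℂ 2 (volume : Measure E)) =ᵐ[volume]
      VectorFourier.fourierIntegral 𝐞 volume (innerₗ E).flip f := by
    refine ae_eq_of_integral_contDiff_smul_eq ((Lp.memLp _).locallyIntegrable (by simp))
      (VectorFourier.fourierIntegral_continuous (L := (innerₗ E).flip) continuous_fourierChar
        (hL.comp continuous_swap) hf).locallyIntegrable fun u u1 u2 => ?_
    let φ := (u2.comp_left (g := Complex.ofRealCLM) (map_zero _)).toSchwartzMap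
      (Complex.ofRealCLM.contDiff.comp u1)
    have h : ∫ x, φ x • (𝓕 f : Lp ℂ 2 (volume : Measure E)) x =
        ∫ x, VectorFourier.fourierIntegral 𝐞 volume (innerₗ E) φ x • f x := by
      rw [← Lp.toTemperedDistribution_apply, ← Lp.fourier_toTemperedDistribution_eq,
        TemperedDistribution.fourier_apply, Lp.toTemperedDistribution_apply]
      rfl
    exact h.trans (VectorFourier.integral_fourierIntegral_smul_eq_flip continuous_fourierChar hL
      φ.integrable hf)
  rwa [flip_innerₗ] at this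

def Ok (f : E → ℂ) : Prop := Integrable f ∧ MemLp f 2

lemma four' {f : E → ℂ} (h : Ok f) :
    (𝓕 (h.2.toLp f) : Lp ℂ 2 (volume : Measure E)) =ᵐ[volume] 𝓕 f := by
  have e := h.2.coeFn_toLp
  refine (four _ (h.1.congr e.symm)).trans (.of_forall fun x => ?_)
  exact fourier_congr_ae e x

lemma planch {f g : E → ℂ} (h : Ok f) (k : Ok g) :
    ∫ x, g x * conj (f x) = ∫ x, 𝓕 g x * conj (𝓕 f x) := by
  have := Lp.inner_fourier_eq (h.2.toLp f) (k.2.toLp g)
  rw [L2.inner_def, L2.inner_def] at this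
  refine (integral_congr_ae ?_).trans (this.symm.trans (integral_congr_ae ?_))
  · filter_upwards [h.2.coeFn_toLp, k.2.coeFn_toLp] with x a b
    rw [a, b]; rfl
  · filter_upwards [four' h, four' k] with x a b
    rw [a, b]; rfl

lemma planch1 {f : E → ℂ} (h : Ok f) : MemLp (fun x => ‖𝓕 f x‖) 2 ∧
    ∫ x, ‖𝓕 f x‖ * ‖𝓕 f x‖ = ∫ x, ‖f x‖ * ‖f x‖ := by
  refine ⟨((Lp.memLp _).ae_eq (four' h)).norm, ?_⟩
  have := planch h h
  simp only [Complex.mul_conj, integral_complex_ofReal, Complex.ofReal_inj,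
    Complex.normSq_eq_norm_sq, sq] at this
  exact this.symm

lemma cs {u v1 v2 : E → ℝ} {κ α β γ : ℝ} (k : κ ≠ 0) (h1 : MemLp v1 2) (h2 : MemLp v2 2)
    (e : ∀ x, v1 x * v2 x = κ * (u x * u x)) (a : ∫ x, u x * u x = α) (b : ∫ x, v1 x * v1 x = β)
    (c : ∫ x, v2 x * v2 x = γ) (d : β * γ = κ ^ 2 * α ^ 2) :
    ∀ᵐ x, α * (v1 x * v1 x) = β * (u x * u x) := by
  have i11 := h1.integrable_mul h1
  have i12 := h1.integrable_mul h2
  have i22 := h2.integrable_mul h2
  have q : ∀ x, (κ * α * v1 x - β * v2 x) ^ 2 = (κ * α) ^ 2 * (v1 * v1) x -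
      2 * κ * α * β * (v1 * v2) x + β ^ 2 * (v2 * v2) x := fun x => by simp only [Pi.mul_apply]; ring
  have := (integral_eq_zero_iff_of_nonneg (f := fun x => (κ * α * v1 x - β * v2 x) ^ 2)
    (fun x => sq_nonneg _) (by
      simp only [q]; exact ((i11.const_mul _).sub (i12.const_mul _)).add (i22.const_mul _))).1 (by
      simp only [q]
      rw [integral_add (by exact (i11.const_mul _).sub (i12.const_mul _)) (i22.const_mul _),
        integral_sub (i11.const_mul _) (i12.const_mul _), integral_const_mul, integral_const_mul,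
        integral_const_mul]
      simp only [Pi.mul_apply, e, integral_const_mul, a, b, c]
      linear_combination β * d)
  filter_upwards [this] with x hx
  have := pow_eq_zero_iff two_ne_zero |>.1 hx
  exact mul_left_cancel₀ k (by linear_combination v1 x * this + β * e x)

noncomputable def w (K : Set E) (σ : E) (x : E) : ℂ := K.indicator (fun x => (exp ⟪σ, x⟫_ℝ : ℝ)) x

lemma w_ok {K : Set E} (h : IsCompact K) (σ : E) : Ok (w K σ) := by
  have c : Continuous fun x : E => ((exp ⟪σ, x⟫_ℝ : ℝ) : ℂ) := by fun_prop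
  obtain ⟨C, hC⟩ := h.exists_bound_of_continuousOn c.continuousOn
  have : IsFiniteMeasure (volume.restrict K) := ⟨by simpa using h.measure_lt_top⟩
  have : ∀ p, MemLp (w K σ) p := fun p => (memLp_indicator_iff_restrict h.measurableSet).2
    (MemLp.of_bound c.aestronglyMeasurable C (ae_restrict_of_forall_mem h.measurableSet hC))
  exact ⟨memLp_one_iff_integrable.1 (this 1), this 2⟩

lemma Ok.comp {f : E → ℂ} (h : Ok f) {T : E → E} (m : MeasurePreserving T) : Ok (f ∘ T) :=
  ⟨m.integrable_comp_of_integrable h.1, h.2.comp_measurePreserving m⟩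

def T (K : Set E) (t : E) : Set E := K ∩ (fun y => y + t) '' K

omit [InnerProductSpace ℝ E] [FiniteDimensional ℝ E] [MeasurableSpace E] [BorelSpace E] in
lemma mem_T {K : Set E} {t x : E} : x ∈ T K t ↔ x ∈ K ∧ x - t ∈ K :=
  and_congr_right fun _ => ⟨fun ⟨y, a, b⟩ => by rwa [← b, add_sub_cancel_right],
    fun a => ⟨_, a, sub_add_cancel _ _⟩⟩

omit [InnerProductSpace ℝ E] [FiniteDimensional ℝ E] [MeasurableSpace E] [BorelSpace E] in
lemma T_cpt {K : Set E} (h : IsCompact K) (t : E) : IsCompact (T K t) :=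
  h.inter (h.image (by fun_prop))

lemma prod_eq {K : Set E} (h : IsCompact K) (σ ξ : E) :
    𝓕 (w K σ) ξ * 𝓕 (w K (-σ) ∘ Neg.neg) ξ =
      𝓕 (fun t => ((volume.real (T K t) * exp ⟪σ, t⟫_ℝ : ℝ) : ℂ)) ξ := by
  rw [← fourier_mul_convolution_eq (w_ok h σ).1
    ((w_ok h _).comp (Measure.measurePreserving_neg _)).1]
  refine fourier_congr_ae (.of_forall fun t => ?_) ξ
  rw [convolution_def, ← smul_eq_mul, ← setIntegral_const, ← integral_complex_ofReal,
    ← integral_indicator (T_cpt h t).measurableSet]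
  refine congrArg _ (funext fun x => ?_)
  simp only [ContinuousLinearMap.mul_apply', w, Function.comp_apply, neg_sub]
  by_cases a : x ∈ T K t
  · rw [indicator_of_mem a, indicator_of_mem (mem_T.1 a).1, indicator_of_mem (mem_T.1 a).2,
      ← Complex.ofReal_mul, ← exp_add, inner_neg_left, inner_sub_right]; congr 2; ring
  · rw [indicator_of_notMem a]
    rcases not_and_or.1 (mt mem_T.2 a) with b | b <;> simp [indicator_of_notMem b]

noncomputable def m (K : Set E) (σ : E) : ℝ := ∫ x in K, exp ⟪σ, x⟫_ℝ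

lemma w_sq {K : Set E} (h : IsCompact K) (σ : E) :
    ∫ x, ‖w K σ x‖ * ‖w K σ x‖ = m K (σ + σ) := by
  rw [m, ← integral_indicator h.measurableSet]
  refine congrArg _ (funext fun x => ?_)
  by_cases a : x ∈ K <;> simp [w, indicator, a, inner_add_left, exp_add]

lemma w_zero {K : Set E} (h : IsCompact K) (σ : E) : 𝓕 (w K σ) 0 = m K σ := by
  rw [fourier_eq, m, ← integral_complex_ofReal, ← integral_indicator h.measurableSet]
  simp [w]

lemma w_zero' {K : Set E} (h : IsCompact K) (σ : E) : 𝓕 (w K σ ∘ Neg.neg) 0 = m K σ := by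
  rw [← w_zero h, fourier_eq, fourier_eq]
  simpa using integral_neg_eq_self (w K σ) volume

lemma csm (f : E → ℂ) (a : ℂ) (ξ : E) : 𝓕 (a • f) ξ = a • 𝓕 f ξ :=
  congrFun (VectorFourier.fourierIntegral_const_smul 𝐞 volume (innerₗ E) f a) ξ

lemma shift (f : E → ℂ) (t ξ : E) : 𝓕 (f ∘ fun x => x + t) ξ = 𝐞 ⟪t, ξ⟫_ℝ • 𝓕 f ξ :=
  congrFun (VectorFourier.fourierIntegral_comp_add_right 𝐞 volume (innerₗ E) f t) ξ

noncomputable def A (K : Set E) (σ t : E) : ℝ := ∫ x in T K t, exp ⟪σ, x + (x - t)⟫_ℝ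

lemma A_eq {K : Set E} (h : IsCompact K) (σ t : E) :
    (A K σ t : ℂ) = ∫ ξ, 𝐞 ⟪-t, ξ⟫_ℝ • ((‖𝓕 (w K σ) ξ‖ * ‖𝓕 (w K σ) ξ‖ : ℝ) : ℂ) := by
  have := planch (w_ok h σ) ((w_ok h σ).comp (measurePreserving_add_right volume (-t)))
  simp only [shift, smul_mul_assoc, Complex.mul_conj, Complex.normSq_eq_norm_sq, sq] at this
  rw [← this, A, ← integral_complex_ofReal, ← integral_indicator (T_cpt h t).measurableSet]
  refine congrArg _ (funext fun x => ?_)
  simp only [w, Function.comp_apply, ← sub_eq_add_neg]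
  by_cases a : x ∈ T K t
  · rw [indicator_of_mem a, indicator_of_mem (mem_T.1 a).1, indicator_of_mem (mem_T.1 a).2,
      Complex.conj_ofReal, ← Complex.ofReal_mul, ← exp_add, inner_add_right, add_comm]
  · rw [indicator_of_notMem a]
    rcases not_and_or.1 (mt mem_T.2 a) with b | b <;> simp [indicator_of_notMem b]

lemma key {C D : Set E} (hC : IsCompact C) (hD : IsCompact D) {c : E}
    (s : ∀ x ∈ C, (2:ℝ) • c - x ∈ C) (g : ∀ t, volume (T D t) = volume (T C t)) (σ t : E) :
    m C (σ + σ) * A D σ t = m D (σ + σ) * A C σ t := by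
  have p : ∀ σ ξ, 𝓕 (w D σ) ξ * 𝓕 (w D (-σ) ∘ Neg.neg) ξ =
      𝓕 (w C σ) ξ * 𝓕 (w C (-σ) ∘ Neg.neg) ξ := fun σ ξ => by
    rw [prod_eq hD, prod_eq hC]; simp only [Measure.real, g]
  have r : ∀ σ ξ, ‖𝓕 (w C (-σ) ∘ Neg.neg) ξ‖ = exp (-⟪σ, (2:ℝ) • c⟫_ℝ) * ‖𝓕 (w C σ) ξ‖ :=
    fun σ ξ => by
      rw [show w C (-σ) ∘ Neg.neg = ((exp (-⟪σ, (2:ℝ) • c⟫_ℝ) : ℝ) : ℂ) •
        (w C σ ∘ fun x => x + (2:ℝ) • c) from funext fun x => ?_, csm,
        norm_smul, shift, Circle.norm_smul, Complex.norm_real, Real.norm_of_nonneg (exp_pos _).le]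
      have : -x ∈ C ↔ x + (2:ℝ) • c ∈ C := ⟨fun l => by simpa [add_comm] using s _ l,
        fun l => by simpa using s _ l⟩
      simp only [w, Function.comp_apply, Pi.smul_apply, smul_eq_mul]
      by_cases a : -x ∈ C
      · rw [indicator_of_mem a, indicator_of_mem (this.1 a), ← Complex.ofReal_mul, ← exp_add,
          inner_neg_neg, inner_add_right]; congr 2; ring
      · rw [indicator_of_notMem a, indicator_of_notMem (mt this.2 a), mul_zero]
  have m0 : ∀ (K : Set E) σ, 0 ≤ m K σ := fun K σ => integral_nonneg fun x => (exp_pos _).le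
  have ok2 := (w_ok hD (-σ)).comp (Measure.measurePreserving_neg _)
  have := cs (κ := exp (-⟪σ, (2:ℝ) • c⟫_ℝ)) (exp_ne_zero _) (planch1 (w_ok hD σ)).1 (planch1 ok2).1
    (fun x => by rw [← norm_mul, p, norm_mul, r]; ring)
    ((planch1 (w_ok hC σ)).2.trans (w_sq hC σ)) ((planch1 (w_ok hD σ)).2.trans (w_sq hD σ))
    ((planch1 ok2).2.trans ((integral_neg_eq_self (fun x => ‖w D (-σ) x‖ * ‖w D (-σ) x‖) volume).trans
      (w_sq hD _))) (by
      have := congrArg norm (p (σ + σ) 0)
      rw [norm_mul, norm_mul, r, w_zero hD, w_zero' hD, w_zero hC] at this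
      simp only [Complex.norm_real, Real.norm_of_nonneg (m0 _ _), neg_add, inner_add_left,
        exp_add] at this
      rw [this]; ring)
  rw [← Complex.ofReal_inj, Complex.ofReal_mul, Complex.ofReal_mul, A_eq hC, A_eq hD,
    ← integral_const_mul, ← integral_const_mul]
  refine integral_congr_ae ?_
  filter_upwards [this] with x hx
  rw [mul_smul_comm, mul_smul_comm, ← Complex.ofReal_mul, ← Complex.ofReal_mul, hx]

end Pool.Agent.H.MP_48d5b6_gt
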