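import Pool.Agent.H.MP_48d5b6_gt.A

set_option autoImplicit false

namespace Pool.Agent.H.MP_48d5b6_gt
open scoped ENNReal InnerProductSpace
open MeasureTheory Set Real Filter Topology ProbabilityTheory

variable {E : Type} [NormedAddCommGroup E] [InnerProductSpace ℝ E] [FiniteDimensional ℝ E]
  [MeasurableSpace E] [BorelSpace E]

lemma clo1 {K : Set E} (r : closure (interior K) = K) {p q : E} (hp : p ∈ K) (hq : q ∈ K) :
    p - q ∈ closure {t | volume (T K t) ≠ 0} := by
  rw [← r] at hp hq
  refine map_mem_closure₂ continuous_sub hp hq fun a ha b hb => ?_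
  refine ((isOpen_interior.inter (isOpen_interior.preimage (continuous_sub_right (a - b)))).measure_pos
    volume ⟨a, ha, by simpa using hb⟩ |>.trans_le (measure_mono fun x hx => ?_)).ne'
  exact mem_T.2 ⟨interior_subset hx.1, interior_subset hx.2⟩

lemma clo2 {K : Set E} (h : IsCompact K) {t : E} (ht : t ∈ closure {t | volume (T K t) ≠ 0}) :
    ∃ p ∈ K, ∃ q ∈ K, p - q = t := by
  have c := ((h.prod h).image continuous_sub).isClosed
  obtain ⟨⟨p, q⟩, a, b⟩ := c.closure_subset_iff.2 (fun t ht => by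
    obtain ⟨x, hx⟩ := nonempty_of_measure_ne_zero ht
    exact ⟨(x, x - t), mem_T.1 hx, by simp⟩) ht
  exact ⟨p, a.1, q, a.2, b⟩

omit [FiniteDimensional ℝ E] [MeasurableSpace E] [BorelSpace E] in
lemma near {K : Set E} {p q : E} (hp : p ∈ K) (hq : q ∈ K)
    (mx : ∀ x ∈ K, ∀ y ∈ K, ‖x - y‖ ≤ ‖p - q‖) {φ : E × E → ℝ} (c : Continuous φ) {ε : ℝ}
    (e : 0 < ε) : ∀ᶠ t in 𝓝 (p - q), ∀ x ∈ T K t, ‖φ (x, t) - φ (p, p - q)‖ ≤ ε := by
  obtain ⟨δ, d0, d⟩ := Metric.continuous_iff.1 c (p, p - q) ε e
  have c2 : Continuous fun t : E => 2 * ‖p - q‖ * ‖t - (p - q)‖ + ‖t - (p - q)‖ ^ 2 := by fun_prop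
  filter_upwards [Metric.ball_mem_nhds _ d0, c2.continuousAt.eventually_lt continuousAt_const
    (show _ < δ ^ 2 by simpa using pow_pos d0 2)] with t a b x hx
  refine (d (x, t) (max_lt ?_ a)).le
  obtain ⟨x1, x2⟩ := mem_T.1 hx
  have h1 := mx x x1 q hq
  have h2 := mx p hp _ x2
  have h3 := parallelogram_law_with_norm ℝ (p - q) (x - p)
  have h4 : ‖p - q - (x - p)‖ ≤ ‖p - q‖ + ‖t - (p - q)‖ := by
    rw [show p - q - (x - p) = (p - (x - t)) - (t - (p - q)) by abel]
    exact (norm_sub_le _ _).trans (by linarith)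
  rw [show p - q + (x - p) = x - q by abel] at h3
  have h5 := mul_self_le_mul_self (norm_nonneg _) h1
  have h6 := mul_self_le_mul_self (norm_nonneg _) h4
  rw [dist_eq_norm]
  refine lt_of_pow_lt_pow_left₀ 2 d0.le ?_
  dsimp only
  nlinarith [norm_nonneg (x - p)]

lemma A_near {K : Set E} (h : IsCompact K) {σ t : E} {L ε : ℝ}
    (k : ∀ x ∈ T K t, ‖exp ⟪σ, x + (x - t)⟫_ℝ - L‖ ≤ ε) :
    |A K σ t - L * volume.real (T K t)| ≤ ε * volume.real (T K t) := by
  have c := T_cpt h t
  have := norm_setIntegral_le_of_norm_le_const c.measure_lt_top k (μ := volume)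
  rwa [integral_sub (ContinuousOn.integrableOn_compact c (by fun_prop))
    (by exact integrableOn_const c.measure_lt_top.ne), setIntegral_const, smul_eq_mul, mul_comm _ L] at this

lemma lap {C D : Set E} (hC : IsCompact C) (hD : IsCompact D) (rC : closure (interior C) = C)
    (rD : closure (interior D) = D) (n : C.Nonempty) {c : E}
    (s : ∀ x ∈ C, (2:ℝ) • c - x ∈ C) (g : ∀ t, volume (T D t) = volume (T C t)) :
    ∃ a : E, ∀ σ, m D σ = m C σ * exp ⟪σ, a⟫_ℝ := by
  obtain ⟨⟨p, q⟩, ⟨hp, hq⟩, mx⟩ := (hC.prod hC).exists_isMaxOn (n.prod n)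
    (f := fun z : E × E => ‖z.1 - z.2‖) (by fun_prop)
  have mC : ∀ x ∈ C, ∀ y ∈ C, ‖x - y‖ ≤ ‖p - q‖ := fun x a y b => mx (show (x, y) ∈ _ from ⟨a, b⟩)
  have t0 := clo1 rC hp hq
  obtain ⟨p', hp', q', hq', e⟩ := clo2 hD (by simpa only [g] using t0)
  have mD : ∀ x ∈ D, ∀ y ∈ D, ‖x - y‖ ≤ ‖p' - q'‖ := fun x a y b => by
    obtain ⟨u, a, v, b, l⟩ := clo2 hC (by simpa only [g] using clo1 rD a b)
    rw [e, ← l]; exact mC u a v b
  refine ⟨p' - p, fun τ => ?_⟩
  obtain ⟨σ, rfl⟩ : ∃ σ, τ = σ + σ := ⟨(1/2:ℝ) • τ, by rw [← add_smul]; norm_num⟩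
  have m0 : ∀ (K : Set E) σ, 0 ≤ m K σ := fun K σ => integral_nonneg fun x => (exp_pos _).le
  have c : Continuous fun z : E × E => exp ⟪σ, z.1 + (z.1 - z.2)⟫_ℝ := by fun_prop
  have k : m C (σ + σ) * exp ⟪σ, p' + (p' - (p - q))⟫_ℝ =
      m D (σ + σ) * exp ⟪σ, p + (p - (p - q))⟫_ℝ := by
    refine eq_of_forall_dist_le fun ε e0 => ?_
    have S0 : 0 < m C (σ + σ) + m D (σ + σ) + 1 := by linarith [m0 C (σ + σ), m0 D (σ + σ)]
    obtain ⟨t, a, b1, b2⟩ := ((mem_closure_iff_frequently.1 t0).and_eventually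
      ((near hp hq mC c (div_pos e0 S0)).and (e ▸ near hp' hq' mD c (div_pos e0 S0)))).exists
    have a1 := A_near hC b1
    have a2 := A_near hD b2
    have G : 0 < volume.real (T C t) := ENNReal.toReal_pos a (T_cpt hC t).measure_lt_top.ne
    rw [show volume.real (T D t) = volume.real (T C t) by simp only [Measure.real, g]] at a2
    have ky := key hC hD s g σ t
    have m1 := m0 C (σ + σ)
    have m2 := m0 D (σ + σ)
    have z : ε = ε / (m C (σ + σ) + m D (σ + σ) + 1) * (m C (σ + σ) + m D (σ + σ) + 1) :=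
      (div_mul_cancel₀ _ S0.ne').symm
    have z0 := div_pos e0 S0
    dsimp only at a1 a2
    generalize ε / (m C (σ + σ) + m D (σ + σ) + 1) = η at *
    generalize m C (σ + σ) = α at *
    generalize m D (σ + σ) = β at *
    generalize volume.real (T C t) = V at *
    rw [Real.dist_eq, ← mul_le_mul_iff_left₀ G, ← abs_of_pos G, ← abs_mul, abs_of_pos G, z]
    rw [abs_le] at *
    have b1 := mul_le_mul_of_nonneg_left a1.1 m2
    have b2 := mul_le_mul_of_nonneg_left a1.2 m2
    have b3 := mul_le_mul_of_nonneg_left a2.1 m1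
    have b4 := mul_le_mul_of_nonneg_left a2.2 m1
    have b5 := mul_pos z0 G
    constructor <;> linarith
  refine mul_right_cancel₀ (exp_ne_zero ⟪σ, p + (p - (p - q))⟫_ℝ) ?_
  rw [← k, mul_assoc, ← exp_add]
  simp only [inner_add_left, inner_add_right, inner_sub_right]
  congr 2; ring

lemma uniq {C D : Set E} (hC : IsCompact C) (hD : IsCompact D) (h : ∀ σ, m D σ = m C σ) :
    volume.restrict D = volume.restrict C := by
  have : IsFiniteMeasure (volume.restrict C) := ⟨by simpa using hC.measure_lt_top⟩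
  have : IsFiniteMeasure (volume.restrict D) := ⟨by simpa using hD.measure_lt_top⟩
  refine Measure.ext_of_charFun (funext fun t => ?_)
  have e : mgf (fun x => ⟪x, t⟫_ℝ) (volume.restrict D) = mgf (fun x => ⟪x, t⟫_ℝ) (volume.restrict C) :=
    funext fun s => by simpa only [m, mgf, real_inner_smul_left, real_inner_comm t] using h (s • t)
  have z := congrFun e 0
  simp only [mgf_zero', Measure.real] at z
  have := eqOn_complexMGF_of_mgf' e (by
    rw [← Measure.measure_univ_eq_zero, ← Measure.measure_univ_eq_zero,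
      (ENNReal.toReal_eq_toReal_iff' (measure_ne_top _ _) (measure_ne_top _ _)).1 z])
    (show Complex.I ∈ _ by
      rw [show integrableExpSet (fun x => ⟪x, t⟫_ℝ) (volume.restrict D) = univ from
        eq_univ_of_forall fun s => ContinuousOn.integrableOn_compact hD (by fun_prop)]
      simp)
  simpa only [complexMGF, charFun, mul_comm Complex.I] using this

lemma sub {C D : Set E} (hC : IsCompact C) (rD : closure (interior D) = D)
    (h : volume.restrict D = volume.restrict C) : D ⊆ C := fun x hx => by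
  by_contra k
  obtain ⟨y, a, b⟩ := mem_closure_iff.1 (rD.symm.subset hx) _ hC.isClosed.isOpen_compl k
  have o := hC.isClosed.isOpen_compl.inter (isOpen_interior (s := D))
  have := congrArg (· (Cᶜ ∩ interior D)) h
  simp only [Measure.restrict_apply o.measurableSet] at this
  rw [inter_eq_left.2 (inter_subset_right.trans interior_subset), inter_right_comm,
    compl_inter_self, empty_inter, measure_empty] at this
  exact (o.measure_pos volume ⟨y, a, b⟩).ne' this

theorem main {C D : Set E} (hC : IsCompact C) (hD : IsCompact D) (rC : closure (interior C) = C)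
    (rD : closure (interior D) = D) {c : E} (s : ∀ x ∈ C, (2:ℝ) • c - x ∈ C)
    (g : ∀ t, volume (T D t) = volume (T C t)) : ∃ a : E, D = (fun y => y + a) '' C := by
  rcases C.eq_empty_or_nonempty with rfl | n
  · refine ⟨0, (eq_empty_of_forall_notMem fun x hx => ?_).trans (image_empty _).symm⟩
    have := clo1 rD hx hx
    simp only [g] at this
    simp [T] at this
  obtain ⟨a, k⟩ := lap hC hD rC rD n s g
  have c2 := hC.image (continuous_add_const a)
  have u := uniq c2 hD fun σ => by
    rw [k, m, m, (measurePreserving_add_right volume a).setIntegral_image_emb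
      (measurableEmbedding_addRight a), ← integral_mul_const]
    simp only [inner_add_right, exp_add]
  refine ⟨a, subset_antisymm (sub c2 rD u) (sub hD ?_ u.symm)⟩
  rw [show (fun y => y + a) = Homeomorph.addRight a from rfl, ← Homeomorph.image_interior,
    ← Homeomorph.image_closure, rC]

end Pool.Agent.H.MP_48d5b6_gt
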